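import Pool.Agent.Q36.HL.Nu

/-!
# Weak log abundance for pairs dominated by products of open curves

Let `C i` (`i < n`) be projective curves and `S i` finite sets of points, such that every nonconstant
function on `C i` vanishing on `S i` has degree at least `γ i ≥ 2` (for `S i = ∅` this is the
gonality; for `P¹` it means that `S i` has at least `2` points, and `γ i` can be the number of points
of `S i`). Let `(X, Δ)` be a log smooth pair (reduced boundary) such that there is a dominant
rational map of degree `r` from `Z = C 1 × ... × C n` (or from a variety with a generically finite
map to this product) to `X` for which the boundary of `Z` (the preimages of the `S i`) is the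
preimage of `Δ`: for instance a proper surjective generically finite map from the product of the open
curves `C i - S i` to `X - Δ`. Nothing else is assumed about `X`; the map need not be a quotient.

For a general point `x` of `X` let `r_i` be the number of different `i`-th coordinates of the `r`
points of `Z` over `x`, and for a set `Q` of indices let `r(Q)` be the number of the points over `x`
which have the same `j`-th coordinates as a given one of them for all `j` outside `Q`. The theorem: if

* `2 r_i < γ_i` for all `i` in some set `B` (which may be empty), and
* for all `Q` disjoint from `B` the points over `x` are determined by their coordinates outside `Q`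
  (`r(Q) = 1`), or `2 r(Q) - 1 ≤ ∑ j ∈ Q, (γ j - 2)`, and
* no `C i - S i` is an elliptic curve minus one point,

then the image of the map given by the linear system `|K_X + Δ|` has dimension at least `h`, the
number of the open curves `C i - S i` with `2 g - 2 + |S i| > 0`; and
`κ(X, K_X + Δ) = ν(X, K_X + Δ) = h` if `Z` is the product of the curves.

Proof: the traces to `X` of the exterior products of logarithmic differentials `f i` on the curves are
logarithmic forms `G_f` on `X`. If a vector field `D` of `X` kills all their quotients, there is a
relation between the values and the derivatives of the `f i` at the `r` points of a general fibre.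
By Riemann-Roch on the curves and specialisation, generic points whose number with multiplicities is
smaller than `γ i` impose independent conditions on the differentials with simple poles on `S i`. The
condition above is Hall's condition of the marriage theorem for the following task: assign to each
point of the fibre except one, two coordinates (or twice the same) in which its value (or its value
and its derivative) is killed, such that the coordinate `i` is used at most `γ i - 2` times.
-/

set_option autoImplicit false
set_option linter.overlappingInstances false

open FF IntermediateField Pool.Agent.W603.LV Pool.Agent.W619.PQ Pool.Agent.W619.TW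

namespace Pool.Agent.Results.MP_2c56d9_ag.DominatedByOpenCurves

/-- Every nonconstant function on the curve with function field `F` which vanishes on the finite set
`S` of points has degree at least `γ`. -/
def LogGonalityGe (F : Type) [Field F] [Algebra ℂ F] (S : Finset (Place ℂ F)) (γ : ℕ) : Prop :=
  ∀ b : F, Transcendental ℂ b → (∀ P ∈ S, 0 < P.ord b) → γ ≤ Module.finrank ℂ⟮b⟯ F

/-- The image of the map given by the sections of `m (K_X + Δ)` has dimension at least `h`: there are
`h + 1` sections of `m (K_X + Δ)` whose ratios to the first one are algebraically independent. -/
def ImageGe (K : Type) [Field K] [Algebra ℂ K] (n : ℕ) (Bd : Place ℂ K → Prop) (m h : ℕ) : Prop :=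
  ∃ ω : Fin (h + 1) → (Fin n → Derivation ℂ K K) → K,
    (∀ l, IsSec ℂ K n Bd {1} m 0 (ω l)) ∧
    ∃ D, (∀ l, ω l D ≠ 0) ∧ AlgebraicIndependent ℂ (fun l : Fin h => ω l.succ D / ω 0 D)

/-- The boundary of `Z`: the places of its function field over a point of some `S i`. -/
def ProductBoundary {M : Type} [Field M] [Algebra ℂ M] {n : ℕ}
    (F : Fin n → IntermediateField ℂ M) (S : ∀ i, Finset (Place ℂ (F i))) (w : Place ℂ M) : Prop :=
  ∃ (i : Fin n) (q : Place ℂ (F i)) (e : ℕ), Over w q e ∧ q ∈ S i

section

variable (L : Type) {M : Type} [Field L] [Field M] [Algebra ℂ L] [Algebra ℂ M] [Algebra L M]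

/-- The number of different `C`-coordinates on a general fibre of `Z ⇢ X`, where `F` is the function
field of `C`: the degree over `X` of the image of `Z` in `X × C`. -/
noncomputable def coordinates (F : IntermediateField ℂ M) : ℕ :=
  Module.finrank L (IntermediateField.adjoin L (F : Set M))

/-- The number of the points of a general fibre of `Z ⇢ X` with the same coordinates outside `Q` as a
given one: the degree of `Z` over its image in `X × ∏ j ∉ Q, C j`. -/
noncomputable def agreeing {n : ℕ} (F : Fin n → IntermediateField ℂ M) (Q : Finset (Fin n)) : ℕ :=
  Module.finrank (IntermediateField.adjoin L {z : M | ∃ j, j ∉ Q ∧ z ∈ F j}) M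

end

/-- **Weak log abundance for pairs dominated by products of open curves.** Let `F i` (`i < n`) be the
function fields of curves `C i`, `S i` finite sets of points of `C i` such that nonconstant functions
vanishing on `S i` have degree at least `γ i ≥ 2`, and such that `C i - S i` is not an elliptic curve
minus a point. Let `M` be the function field of a variety `Z` of dimension `n` with a generically
finite rational map to the product of the curves, `L ⊆ M` the function field of `X`, with `M` finite
over `L`, and `Bd` the set of the prime divisors over `X` which are in the preimage of `Δ`. Assume the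
numerical condition on the fibres of `Z ⇢ X`. Let `h` be the number of the `i` with
`2 g(C i) - 2 + |S i| > 0`.

(1) If `Bd` contains the images of the prime divisors of `Z` over the points of the `S i`, then the
map given by `|K_X + Δ|` has an image of dimension at least `h`; so `κ(X, K_X + Δ) ≥ h`.

(2) If `Z` is the product of the curves and the prime divisors of `Z` over those in `Bd` are over the
points of the `S i`, then `ν(X, K_X + Δ) ≤ h`. -/
theorem result {L M : Type} [Field L] [Field M] [Algebra ℂ L] [Algebra ℂ M] [Algebra L M]
    [IsScalarTower ℂ L M] [FiniteDimensional L M] [Algebra.EssFiniteType ℂ L] (n : ℕ)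
    (hM : Algebra.trdeg ℂ M = n) (F : Fin n → IntermediateField ℂ M) (hF : ∀ i, IsFF ℂ (F i))
    (halg : Algebra.IsAlgebraic ↥(⨆ i, F i) M) (S : ∀ i, Finset (Place ℂ (F i)))
    (γ : Fin n → ℕ) (hγ2 : ∀ i, 2 ≤ γ i) (hγ : ∀ i, LogGonalityGe (F i) (S i) (γ i))
    (hell : ∀ i, ¬ (canDeg ℂ (F i) = 0 ∧ (S i).card = 1))
    (B : Finset (Fin n)) (hB : ∀ i ∈ B, 2 * coordinates L (F i) < γ i)
    (hQ : ∀ Q : Finset (Fin n), Disjoint Q B →
      agreeing L F Q = 1 ∨ 2 * agreeing L F Q ≤ 1 + ∑ j ∈ Q, (γ j - 2))
    (Bd : Place ℂ L → Prop) :
    ((∀ (w : Place ℂ M) (v : Place ℂ L) (e : ℕ), IsDivisorial w n → Over w v e →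
        ProductBoundary F S w → Bd v) →
      ImageGe L n Bd 1 (Finset.univ.filter fun i => 0 < canDeg ℂ (F i) + (S i).card).card) ∧
    (⨆ i, F i = ⊤ → (∀ (w : Place ℂ M) (v : Place ℂ L) (e : ℕ), IsDivisorial w n → Over w v e →
        Bd v → ProductBoundary F S w) →
      NumLe ℂ L n Bd (Finset.univ.filter fun i => 0 < canDeg ℂ (F i) + (S i).card).card) :=
  ⟨fun h1 => Q36.HL.image_hallL F hM halg hγ2 S hγ B hB hQ hell Bd h1,
    fun hsup h1 => Q36.HL.num_domL F hM hsup S
      (fun i => Q36.HL.nonneg_of_gon (S i) fun b hb hS => (hγ2 i).trans (hγ i b hb hS)) Bd h1⟩

end Pool.Agent.Results.MP_2c56d9_ag.DominatedByOpenCurves
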