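import Pool.Agent.Q57.TP.Mak

/-!
# Weak abundance for toroidal pairs on covers of projective space branched along normal crossings

Let `F k`, `k = 0, ..., n`, be forms of degrees `d k` in `n + 1` variables whose zero sets in the
projective `n`-space are smooth hypersurfaces with normal crossings. Let `K` be the function field
of an abelian cover of the projective space which is branched only along these hypersurfaces: `K`
is generated by the affine coordinates and by roots `z j`,
`z j ^ (m j) = ∏ k, (F k (x) / x 0 ^ (d k)) ^ (a j k)`, where `m j` divides `∑ k, a j k * d k`. (For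
`n ≥ 2` all finite covers which are branched only along these hypersurfaces are abelian; covers
which are branched along fewer hypersurfaces are included: add general hyperplanes, `a j k = 0`.)

A prime divisor `P` over the cover (a divisorial place of `K`) has the vector `multiplicities F d x P`
of the multiplicities `v k` of the hypersurfaces along `P`. The vectors `v ≠ 0` of nonnegative
integers, not all positive, with `m j ∣ ∑ k, a j k * v k` for all `j` are the `Admissible` ones.

**The pairs.** The boundary is given by a function `c`, with `c ≤ 1`, on the vectors: `- c v` is the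
discrepancy of the pair along the divisors with the vector `v`, and sections of the `m`-th multiple
of the log canonical divisor are the rational `m`-canonical forms whose order along every prime
divisor `P` is at least `- m c (v)`, `v` the vector of `P`. So `c v` is the coefficient of the boundary
if `P` is a divisor on the variety. The following are examples.

(1) `c v = 1` if `v k > 0` for some `k ∈ U`, and `c v = 0` otherwise: the log canonical divisor
`K_Y + D` of a log smooth compactification `(Y, D)` of a resolution of the part of the cover over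
the complement of the hypersurfaces `F k = 0`, `k ∈ U` (`D` is reduced).

(2) `X` is a toroidal modification of the (normal) cover: it is given by a subdivision of the fan of
the faces of the positive orthant, and the divisors `D_ρ` of `X` over the hypersurfaces belong to the
rays, generated by admissible vectors `ρ`. Let `Δ = ∑ δ_ρ D_ρ` with arbitrary rational coefficients
`δ_ρ ≤ 1` (`(X, Δ)` is a log canonical pair if also `δ_ρ ≥ 0`, and klt if also `δ_ρ < 1`). Then, for
`v ≠ 0`, `1 - c v` is the function which is linear on the cones of the fan and equal to `1 - δ_ρ` at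
`ρ`; it is the log discrepancy of `(X, Δ)` along the toroidal divisors, and the sections are those of
`m (K_X + Δ)`. The inequalities of the rays and the inequalities `0 ≤ y k` imply all inequalities of
the `polyhedron`.

(3) Any function `c ≤ 1` with finitely many values, with `c 0 = 0`, `c ≥ 0` and `c (r v) = c v` for
`r ≥ 1` (see `fg_of_finite` in `Pool.Agent.Q57.TP.Red`).

**The theorem.** The log canonical divisor is pseudo-effective if and only if a positive multiple of
it has a nonzero section (nonvanishing), if and only if the polyhedron of the points `y` with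
`∑ k, d k * y k = ∑ k, (d k - 1)` and `∑ k, v k * y k ≥ 1 - c v` for all admissible `v` is not empty;
in this case its Kodaira dimension and its numerical dimension are equal (weak abundance) and are
the dimension of the polyhedron.

For `c = 0` this is `MP_97d78d_ag.NormalCrossingCovers`. The Kodaira and the numerical dimension are
given by the sections of `m (K + Δ)` and of `m (K + Δ) + A`: functions of `n` rational vector fields
with a condition at all divisorial places of `K`.
-/

set_option autoImplicit false

open FF MvPolynomial Pool.Agent.W602.GT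

namespace Pool.Agent.Results.MP_2c56d9_ag.NormalCrossingPairs

/-- The hypersurfaces `F k = 0` have normal crossings: at every point of the projective space the
gradients of the forms `F k` which vanish at this point are linearly independent. -/
def NormalCrossings {n : ℕ} (F : Fin (n + 1) → MvPolynomial (Fin (n + 1)) ℂ) : Prop :=
  ∀ x : Fin (n + 1) → ℂ, x ≠ 0 → LinearIndependent ℂ
    fun (k : {k // eval x (F k) = 0}) (l : Fin (n + 1)) => eval x (pderiv l (F k.1))

/-- The affine coordinates of the projective space. -/
noncomputable def affine {n : ℕ} {K : Type} [Field K] (x : Fin (n + 1) → K) (b : Fin n) : K :=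
  x b.succ / x 0

section

variable {n R : ℕ}

/-- The multiplicities which satisfy the divisibility conditions. -/
def Admissible (m : Fin R → ℕ) (a : Fin R → Fin (n + 1) → ℕ) (v : Fin (n + 1) → ℕ) : Prop :=
  v ≠ 0 ∧ (∃ k, v k = 0) ∧ ∀ j, m j ∣ ∑ k, a j k * v k

/-- The exponents of the regular forms: `∏ k, F k ^ (y k - 1) * Ω` is a (multivalued) section of the
log canonical divisor. -/
def polyhedron (m : Fin R → ℕ) (a : Fin R → Fin (n + 1) → ℕ) (d : Fin (n + 1) → ℕ)
    (c : (Fin (n + 1) → ℕ) → ℚ) : Set (Fin (n + 1) → ℚ) :=
  {y | ∑ k, (d k : ℚ) * y k = ∑ k, ((d k : ℚ) - 1) ∧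
    ∀ v, Admissible m a v → 1 - c v ≤ ∑ k, (v k : ℚ) * y k}

/-- The function `c` is the function of the coefficients of a boundary: it is at most one (the pair
is log canonical), the boundary is supported over the hypersurfaces, the log discrepancy `1 - c` is
at most homogeneous along the rays, and finitely many of the inequalities of the polyhedron imply
the others. -/
structure IsBoundary (m : Fin R → ℕ) (a : Fin R → Fin (n + 1) → ℕ)
    (c : (Fin (n + 1) → ℕ) → ℚ) : Prop where
  zero : c 0 = 0
  le_one : ∀ v, c v ≤ 1
  ray : ∀ v (r : ℕ), 1 ≤ r → Admissible m a v → 1 - c (r • v) ≤ r * (1 - c v)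
  finite : ∃ T : Finset (Fin (n + 1) → ℕ), (∀ s ∈ T, Admissible m a s) ∧ ∀ v, Admissible m a v →
    ∃ w : (Fin (n + 1) → ℕ) → ℚ, (∀ s, 0 ≤ w s) ∧ (∀ k, ∑ s ∈ T, w s * s k ≤ v k) ∧
      1 - c v ≤ ∑ s ∈ T, w s * (1 - c s)

variable {K : Type} [Field K] [Algebra ℂ K]

/-- The multiplicities of the hypersurfaces `F k = 0` along the prime divisor `P`; the `x j` are the
homogeneous coordinates, which are divided by one of minimal order at `P`. -/
noncomputable def multiplicities (F : Fin (n + 1) → MvPolynomial (Fin (n + 1)) ℂ)
    (d : Fin (n + 1) → ℕ) (x : Fin (n + 1) → K) (P : Place ℂ K) (k : Fin (n + 1)) : ℕ :=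
  (P.ord (aeval x (F k)) -
    d k * Finset.univ.inf' Finset.univ_nonempty fun j => P.ord (x j)).toNat

end

section sections

/-- `ω` is a section of `m (K + Δ) + j A`: a rational section of the `m`-th power of the canonical
bundle (`IsPluri`: a function of `N` rational vector fields which is multiplied by `det B ^ m` under
a linear substitution `B`) whose order on the vector fields which are regular at `P` is at least `j`
times the order of one of the functions in `S`, minus `m` times the coefficient `δ P` of `Δ`, for all
prime divisors `P` (all divisorial places `P` of `K`). Here `A` is the divisor which is generated by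
the finite set `S` of functions; `A = 0` if `S = {1}`. -/
def IsSection {K : Type} [Field K] [Algebra ℂ K] (N : ℕ) (δ : Place ℂ K → ℚ) (S : Finset K)
    (m j : ℕ) (ω : (Fin N → Derivation ℂ K K) → K) : Prop :=
  IsPluri m ω ∧ ∀ P : Place ℂ K, Divisorial N P → ∀ D : Fin N → Derivation ℂ K K,
    (∀ c, DerReg P (D c)) → ω D = 0 ∨ ∃ s ∈ S, s ≠ 0 ∧
      (j : ℚ) * P.ord s - m * δ P ≤ P.ord (ω D)

variable (N : ℕ) {K : Type} [Field K] [Algebra ℂ K] (δ : Place ℂ K → ℚ)

/-- `κ (K + Δ) ≥ h`: for some `m > 0` there are sections of `m (K + Δ)` whose ratios contain `h`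
algebraically independent functions (for `h = 0`: there is a nonzero section). -/
def KodairaGe (h : ℕ) : Prop :=
  ∃ m : ℕ, 0 < m ∧ ∃ ω : Fin (h + 1) → (Fin N → Derivation ℂ K K) → K,
    (∀ b, IsSection N δ {1} m 1 (ω b)) ∧
    ∃ D, ω 0 D ≠ 0 ∧ AlgebraicIndependent ℂ (fun b : Fin h => ω b.succ D / ω 0 D)

/-- `ν (K + Δ) ≤ h`: for every divisor `A` there is a constant `C` such that
`h⁰ (m (K + Δ) + A) ≤ C m ^ h` for all `m ≥ 1`. -/
def NumericalLe (h : ℕ) : Prop :=
  ∀ S : Finset K, ∃ C : ℕ, ∀ m M : ℕ, 1 ≤ m →
    (∃ ω : Fin M → (Fin N → Derivation ℂ K K) → K, LinearIndependent ℂ ω ∧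
      ∀ l, IsSection N δ S m 1 (ω l)) → M ≤ C * m ^ h

/-- `K + Δ` is pseudo-effective: there is a divisor `A` such that for all `M` a positive multiple of
`M (K + Δ) + A` is effective. -/
def Pseudoeffective : Prop :=
  ∃ S : Finset K, ∀ M : ℕ, ∃ j : ℕ, 1 ≤ j ∧ ∃ ω : (Fin N → Derivation ℂ K K) → K, ω ≠ 0 ∧
    IsSection N δ S (j * M) j ω

end sections

/-- **Weak abundance.** Let `K` be the function field of an abelian cover of the projective `n`-space
which is branched along `n + 1` hypersurfaces `F k = 0` with normal crossings, and let `Δ` be the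
boundary which is given by `c`: its coefficient along a prime divisor `P` is `c v`, where `v` is the
vector of the multiplicities of the hypersurfaces along `P`. Then `K + Δ` is pseudo-effective if and
only if `κ (K + Δ) ≥ 0` and if and only if the polyhedron is not empty; in this case
`κ (K + Δ) = ν (K + Δ)` is the dimension of the polyhedron. -/
theorem result (n R : ℕ) (hn : 1 ≤ n) (d : Fin (n + 1) → ℕ) (hd : ∀ k, 1 ≤ d k)
    (F : Fin (n + 1) → MvPolynomial (Fin (n + 1)) ℂ) (hF : ∀ k, (F k).IsHomogeneous (d k))
    (hs : NormalCrossings F) (m : Fin R → ℕ) (hm : ∀ j, 1 ≤ m j) (a : Fin R → Fin (n + 1) → ℕ)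
    (hdiv : ∀ j, m j ∣ ∑ k, a j k * d k)
    (K : Type) [Field K] [Algebra ℂ K] (x : Fin (n + 1) → K) (hx0 : x 0 ≠ 0)
    (hbas : IsTranscendenceBasis ℂ (affine x)) (z : Fin R → K)
    (hz : ∀ j, z j ^ m j = ∏ k, (aeval x (F k) / x 0 ^ d k) ^ a j k)
    (hgen : IntermediateField.adjoin ℂ (Set.range (affine x) ∪ Set.range z) = ⊤)
    (c : (Fin (n + 1) → ℕ) → ℚ) (hc : IsBoundary m a c)
    (δ : Place ℂ K → ℚ) (hδ : ∀ P, δ P = c (multiplicities F d x P)) :
    (Pseudoeffective n δ ↔ (polyhedron m a d c).Nonempty) ∧
    (KodairaGe n δ 0 ↔ (polyhedron m a d c).Nonempty) ∧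
    ((polyhedron m a d c).Nonempty →
      KodairaGe n δ (Module.finrank ℚ (vectorSpan ℚ (polyhedron m a d c))) ∧
      NumericalLe n δ (Module.finrank ℚ (vectorSpan ℚ (polyhedron m a d c)))) := by
  obtain ⟨e, rfl⟩ : ∃ e, n = e + 1 := ⟨n - 1, by omega⟩
  have hp : polyhedron m a d c = Pool.Agent.Q57.TP.PiC m a d c := by
    unfold polyhedron Pool.Agent.Q57.TP.PiC
    rw [Finset.sum_sub_distrib]
    simp only [Finset.sum_const, Finset.card_univ, Fintype.card_fin, nsmul_eq_mul, mul_one]
    rfl
  rw [hp]
  exact Pool.Agent.Q57.TP.main_d hx0 hbas hd hF hs hm hz hdiv hgen hc.zero hc.le_one hc.ray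
    hc.finite hδ

end Pool.Agent.Results.MP_2c56d9_ag.NormalCrossingPairs
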