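import Pool.Agent.Q47.KN.Main

/-!
# Kodaira dimension and numerical dimension of pairs on quotients of complex tori

Let `X = V / Γ` be the quotient of a complex torus of any dimension, projective or not, by any finite
group, which may contain reflections, and let `B` be any effective divisor with rational coefficients
on `X` (no bound on the coefficients or on the singularities). The theorem says that the Kodaira
dimension and the numerical dimension of `K_X + B` are equal: both are the rank of the Chern form if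
this form is semipositive, and both are `-∞` otherwise. For an arbitrary line bundle on a projective
`X` it describes exactly when the two dimensions differ.

`latt`, `IsTorusQuotient`, `LineBundle` (given by a factor of automorphy `L.e`) are defined in
`Pool.Agent.W594.SYZ.Defs2`; `IsChernForm`, `IsNefForm`, `IsPositiveForm` in
`Pool.Agent.W594.SYZ.TQDefs`; `IsRamification` and `IsLogPluricanonical` in
`Pool.Agent.TH735.AQ.MirDefs`; the following in `Pool.Agent.Q47.KN.Defs`. `Sec e` is the space of the
global sections of the line bundle with the factor of automorphy `e` (those of `L ^ j ⊗ A` have the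
factor `L.e ^ j * A.e`) and `h0 e` its dimension; `kod L`, the Kodaira dimension, is `-∞` if
`h^0(L ^ m) = 0` for all `m ≥ 1` and otherwise the largest `k` with `limsup h^0(L ^ m) / m ^ k > 0`;
`growth f = limsup log f(m) / log m`; the numerical dimension `num L` is the supremum of
`growth (h^0(L ^ m ⊗ A))` over the line bundles `A` with a Chern form (by the theorem of Appell and
Humbert all line bundles have one); `rk` is the rank of a Chern form; `IsSemiample`;
`N d = 4 ((3 ^ (4 d ^ 2))!) ^ 3`.

The proof. The upper bound `O(j ^ k)` for `h0 (L ^ j ⊗ A)`, `k` the rank of the Chern form `H` of `L`: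
a section is determined by its jets of order 15 at `O(j ^ k)` points, which form a net of mesh
`1 / √j` in the directions on which `H` is not zero, and of a fixed mesh in the other directions. The
lower bound: at a point where the length of finitely many generating sections is minimal, their
ratios separate the tangent vectors on which `H` is positive, because of Laplace's equation, so that
`k` of the ratios are algebraically independent.
-/

set_option autoImplicit false

universe u

namespace Pool.Agent.Results.MP_2c56d9_ag.TorusQuotientPairs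

open Pool.Agent.W594.SYZ2 Pool.Agent.TH735.AQ Q47.KD

variable {V : Type u} [NormedAddCommGroup V] [NormedSpace ℂ V]

/-- Let `X = V / Γ` be the quotient of a complex torus of dimension `d` by a finite group and let `ρ`
be an entire function which defines the ramification divisor of `V → X`; `N = expo d`.

(1) Let `β` be an entire function, not zero, which defines the pullback of the effective divisor
`m B`, and `L = O_X(m (K_X + B))`, with Chern form `H`. Then `κ(L) = ν(L)`. If `H` is semipositive,
this number is the rank `k` of `H`, and `h^0(L ^ (N j)) ≥ (⌊j / k⌋ + 1) ^ k` for all `j`. Otherwise it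
is `-∞`.

(2) Let `L` be an arbitrary line bundle on `X` with a Chern form `H`. For all line bundles `A` with a
Chern form there is `D` such that `L ^ j ⊗ A` has a space of sections of finite dimension at most
`D j ^ k` for all `j ≥ 1`, and of dimension `0` for `j ≥ D` if `H` is not semipositive. If some power
`L ^ m`, `m ≥ 1`, has a nonzero section, then `κ(L) = ν(L) = k`.

(3) Assume moreover that `X` has an ample line bundle `A`. If `H` is semipositive, then
`ν(L) = k = limsup log h^0(L ^ j ⊗ A ^ N) / log j`. One has `κ(L) = ν(L)` if and only if `H` is not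
semipositive or `L` is semiample. -/
theorem result [FiniteDimensional ℂ V] (Γ : Subgroup (V ≃ᵃ[ℂ] V)) (hΓ : IsTorusQuotient Γ)
    (ρ : V → ℂ) (hρ : IsRamification Γ ρ) :
    (∀ (m : ℕ) (β : V → ℂ), Differentiable ℂ β → (∃ v, β v ≠ 0) →
      ∀ (L : LineBundle Γ) (H : V → V → ℂ), IsChernForm L H → IsLogPluricanonical L m ρ β →
        kod L = num L ∧
        (IsNefForm H → kod L = rk H ∧ ∀ j : ℕ, (j / rk H + 1) ^ rk H ≤
          h0 (fun γ v => L.e γ v ^ (N (Module.finrank ℂ V) * j))) ∧
        (¬ IsNefForm H → kod L = ⊥)) ∧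
    ∀ (L : LineBundle Γ) (H : V → V → ℂ), IsChernForm L H →
      (∀ (A : LineBundle Γ) (HA : V → V → ℂ), IsChernForm A HA → ∃ D : ℕ, ∀ j : ℕ, 1 ≤ j →
        FiniteDimensional ℂ (Sec (fun γ v => L.e γ v ^ j * A.e γ v)) ∧
        h0 (fun γ v => L.e γ v ^ j * A.e γ v) ≤ D * j ^ rk H ∧
        (¬ IsNefForm H → D ≤ j → h0 (fun γ v => L.e γ v ^ j * A.e γ v) = 0)) ∧
      ((∃ m : ℕ, 1 ≤ m ∧ ∃ s ∈ Sec (fun γ v => L.e γ v ^ m), s ≠ 0) →
        kod L = rk H ∧ num L = rk H) ∧
      ∀ (A : LineBundle Γ) (HA : V → V → ℂ), IsChernForm A HA → IsPositiveForm HA →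
        (IsNefForm H → num L = rk H ∧
          growth (fun j => h0 (fun γ v => L.e γ v ^ j * A.e γ v ^ N (Module.finrank ℂ V)))
            = rk H) ∧
        (kod L = num L ↔ (IsNefForm H → Q47.KD.IsSemiample L)) := by
  have hE : 1 ≤ Q47.EB.expo (Module.finrank ℂ V) := Q47.EB.expo_pos _
  refine ⟨fun m β hβ hβ0 L H hH hL => ?_, fun L H hH => ⟨fun A HA hA => ?_, fun h => ?_,
    fun A HA hA hp => ⟨fun hn => ?_, ?_⟩⟩⟩
  · rw [Q47.KN.rk_eq hH.1, Q47.KN.kod_eq, Q47.KN.num_eq']
    by_cases hn : IsNefForm H
    · have hg : Q47.EB.GG (L.pow (Q47.EB.expo (Module.finrank ℂ V))) := by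
        obtain ⟨hH1, F, hF, hFe⟩ := hH
        exact Q47.EB.gg_of_pair hΓ hH1 ⟨hF, hFe⟩ hρ hβ hβ0 hL hn
      obtain ⟨h1, h2⟩ := Q47.KN.eq_of_gg hΓ hH hn hE hg
      refine ⟨h1.trans h2.symm, fun _ => ⟨h1, fun j => ?_⟩, fun h => absurd hn h⟩
      rw [Q47.KN.h0_pow]
      exact Q47.KN.lower hΓ hH hn hE hg j
    · obtain ⟨h1, h2, -⟩ := Q47.KN.bot_of_not_nef hΓ hH hn
      exact ⟨h1.trans h2.symm, fun h => absurd h hn, fun _ => h1⟩
  · rw [Q47.KN.rk_eq hH.1]
    simp only [Q47.KN.h0_tensor]
    have hs : ∀ j : ℕ, Sec (fun γ v => L.e γ v ^ j * A.e γ v)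
        = Q47.KN.sec (tensor (L.pow j) A) := fun j => Q47.KN.sec_eq (tensor (L.pow j) A)
    obtain ⟨D, hD⟩ := Q47.KN.upper' hΓ hH hA
    by_cases hn : IsNefForm H
    · exact ⟨D, fun j hj => ⟨by rw [hs]; exact (hD j hj).1, (hD j hj).2, fun h => absurd hn h⟩⟩
    · obtain ⟨-, -, h3⟩ := Q47.KN.bot_of_not_nef hΓ hH hn
      obtain ⟨j0, hj0⟩ := h3 A HA hA
      refine ⟨D + j0, fun j hj => ⟨by rw [hs]; exact (hD j hj).1, (hD j hj).2.trans ?_,
        fun _ hDj => ?_⟩⟩
      · exact Nat.mul_le_mul (Nat.le_add_right _ _) le_rfl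
      · by_contra hne
        obtain ⟨s, hs, v, hv⟩ := Q47.KN.exists_section_of_h0 hne
        exact hv (congrFun (hj0 j (by omega) s hs) v)
  · rw [Q47.KN.rk_eq hH.1, Q47.KN.kod_eq, Q47.KN.num_eq']
    obtain ⟨m, hm, s, hs, hs0⟩ := h
    have hs1 : Sec (fun γ v => L.e γ v ^ m) = Q47.KN.sec (L.pow m) := Q47.KN.sec_eq (L.pow m)
    rw [hs1] at hs
    have hs2 : ∃ v, s v ≠ 0 := by
      by_contra hcon
      push Not at hcon
      exact hs0 (funext hcon)
    rcases Q47.KN.kod_cases hΓ hρ hH with h1 | h1
    · have hg := Q47.KN.gg_of_section hΓ hρ (Q47.KN.chern_pow hH m) hs hs2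
      rw [Q47.KN.pow_pow] at hg
      exact absurd hg (h1.2 _ (Nat.mul_pos hm hE))
    · exact ⟨h1.1, h1.2.1⟩
  · rw [Q47.KN.rk_eq hH.1, Q47.KN.num_eq']
    refine ⟨Q47.KN.num_eq hΓ hH hn hA hp, ?_⟩
    have h1 := Q47.KN.growth_ample hΓ hH hn hA hp
    have h2 : (fun j : ℕ => h0 (fun γ v => L.e γ v ^ j * A.e γ v ^ N (Module.finrank ℂ V)))
        = fun j : ℕ => Q47.KN.h0 (tensor (L.pow j) (A.pow (Q47.EB.expo (Module.finrank ℂ V)))) :=
      funext fun j => Q47.KN.h0_tensor L (A.pow (Q47.EB.expo (Module.finrank ℂ V))) j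
    rw [h2]
    exact h1
  · rw [Q47.KN.kod_eq, Q47.KN.num_eq', Q47.KN.semi_iff]
    constructor
    · intro h hn
      rcases Q47.KN.kod_cases hΓ hρ hH with h1 | h1
      · rw [h1.1, Q47.KN.num_eq hΓ hH hn hA hp] at h
        exact absurd h.symm (EReal.natCast_ne_bot _)
      · exact h1.2.2.2
    · intro h
      by_cases hn : IsNefForm H
      · obtain ⟨m, hm, hg⟩ := h hn
        obtain ⟨h1, h2⟩ := Q47.KN.eq_of_gg hΓ hH hn hm hg
        exact h1.trans h2.symm
      · obtain ⟨h1, h2, -⟩ := Q47.KN.bot_of_not_nef hΓ hH hn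
        exact h1.trans h2.symm

end Pool.Agent.Results.MP_2c56d9_ag.TorusQuotientPairs
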