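import Pool.Agent.Q57.UG.TopK

/-!
# Uniform weak abundance for toroidal pairs on arbitrary covers of products of subcanonical varieties

Let `V i`, `i = 1, ..., r`, be a projective variety of dimension `n i ≥ 1` in the projective
`M i`-space, and let `F (i, k)`, `k = 0, ..., n i`, be forms of degrees `d (i, k)` which have no common
zero on `V i`. Let `K` be any finite extension of the function field of the product
`V = V 1 × ... × V r`, of any degree and with any Galois group. The homogeneous coordinates of the
generic point of `V i` are `x i j`, `j = 0, ..., M i`. Suppose that the canonical divisor of `V i` is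
the multiple `κ i` of the hyperplane section: there is a rational differential form `Ω` of the maximal
degree such that the forms `Ω * ∏ i, (x i j) ^ (κ i)`, where `x i j` is a coordinate which is not zero
at a given point, are local generators of the canonical bundle of `V`. So
`logDiscrepancy F d κ x Ω P` is the log discrepancy of the pair `(V, ∑ (i, k), (F (i, k) = 0))` along
the prime divisor `P` over `V` (a divisorial place of `K`). In the theorem `Ω` may be any nonzero
rational form and `κ i` any integers.

**The pairs.** A prime divisor `P` has the vector `multiplicities F d x P` of the multiplicities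
`v (i, k)` of the hypersurface sections `F (i, k) = 0` along `P`. It is a vector of a face: for every
`i` some `v (i, k)` is zero. The divisors `K + Δ 1, ..., K + Δ p` are given by functions `ψ i` on
these vectors: the log discrepancy of `(X, Δ i)` along any prime divisor `P` over `X` is
`ψ i v + logDiscrepancy F d κ x Ω P`, `v` the vector of `P`, so that the `coefficient` of `P` in the
pullback of `K + Δ i` is `δ i P = 1 - ψ i v - logDiscrepancy F d κ x Ω P`. The functions `ψ i` are
homogeneous and, for example, linear on the cones of a subdivision of the fan of the faces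
(`AreLogDiscrepancies`): these are the toroidal divisors on the toroidal modifications `X` of the
covers of `V` which are unramified outside the zero sets of the forms, with arbitrary rational
coefficients (log canonical if `ψ i ≥ 0`). The `K + Δ i` are `ℚ`-linearly equivalent to pullbacks of
toric divisors under a finite map to a product of weighted projective spaces. The pairs are explained
in detail in `MP_e23cd6_ag.UniformAbundanceOfCovers`.

**The theorem.** There is an integer `T ≥ 1` which depends only on the dimensions `n i`, the degrees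
`d (i, k)`, the integers `κ i` and the functions `ψ i`, such that the following holds for all `V i`,
`F`, all fields `K` and forms `Ω` and for all integral vectors `μ ∈ ℕ ^ p`. Let
`D = ∑ i, μ i (K + Δ i)`. Then `D` is pseudo-effective if and only if the `polytope` of `μ`, which is
given by the numerical data, is not empty. In this case

* the sections of the multiple `T D` define a rational map whose image has the dimension of the
  polytope (so `T D` has nonzero sections, and `κ (D)` is at least this dimension), and
* the numerical dimension of `D` is at most the dimension of the polytope.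

So `κ (D) = ν (D)` is the dimension of the polytope, which does not depend on the varieties `V i` and
on the cover, and it is attained by the multiple `T D`: the map of `T D` is the Iitaka fibration, up
to a map of finite degree. In particular for all pairs `(X, Δ)` with a boundary `Δ` in the polytope
of the `Δ i` and with `q (K + Δ)` an integral combination of the `K + Δ i`, if `K + Δ` is
pseudo-effective, then `T q (K + Δ)` has nonzero sections (effective nonvanishing), with an integer
`T` which does not depend on `Δ` and `X`. The Kodaira and the numerical dimension are given by the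
sections of `m D` and of `m D + A`: functions of rational vector fields with a condition at all
divisorial places of `K`.

The results `MP_2c56d9_ag.NormalCrossingPairs` and `MP_bc213e_ag.HypersurfaceQuotientPairs` concern
abelian covers of one projective space, or of products of projective spaces which are branched along
one hypersurface of each factor, one boundary (`p = 1`), and no uniform multiple.
-/

set_option autoImplicit false

open FF MvPolynomial Pool.Agent.W602.GT

namespace Pool.Agent.Results.MP_2c56d9_ag.UniformWeakAbundance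

/-- The index `(i, k)` of the `n i + 1` hypersurface sections of the variety `V i`. -/
abbrev Hypersurface {r : ℕ} (n : Fin r → ℕ) := (i : Fin r) × Fin (n i + 1)

section places

variable {r N p : ℕ} {n M : Fin r → ℕ} {K : Type} [Field K] [Algebra ℂ K]

/-- The ratios of the forms `F (i, k + 1)` and `F (i, 0)`, raised to powers of the same degree. -/
noncomputable def ratio (F : ∀ b : Hypersurface n, MvPolynomial (Fin (M b.1 + 1)) ℂ)
    (d : Hypersurface n → ℕ) (x : ∀ i, Fin (M i + 1) → K) (b : (i : Fin r) × Fin (n i)) : K :=
  aeval (x b.1) (F ⟨b.1, b.2.succ⟩) ^ d ⟨b.1, 0⟩ /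
    aeval (x b.1) (F ⟨b.1, 0⟩) ^ d ⟨b.1, b.2.succ⟩

/-- The forms `F (i, k)` have no common zero on `V i`, the variety of the points at which all forms
vanish which vanish at the generic point `x i`. -/
def NoCommonZeros (F : ∀ b : Hypersurface n, MvPolynomial (Fin (M b.1 + 1)) ℂ)
    (x : ∀ i, Fin (M i + 1) → K) : Prop :=
  ∀ i, ∀ y : Fin (M i + 1) → ℂ, y ≠ 0 →
    (∀ (G : MvPolynomial (Fin (M i + 1)) ℂ) (m : ℕ), G.IsHomogeneous m → aeval (x i) G = 0 →
      eval y G = 0) → ∃ k, eval y (F ⟨i, k⟩) ≠ 0

/-- The minimal order at `P` of the homogeneous coordinates `y` of one factor. -/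
noncomputable def minimalOrder {k : ℕ} (y : Fin (k + 1) → K) (P : Place ℂ K) : ℤ :=
  Finset.univ.inf' Finset.univ_nonempty fun j => P.ord (y j)

/-- The multiplicities of the hypersurface sections `F (i, k) = 0` along the prime divisor `P`; the
`x i j` are the homogeneous coordinates of the `i`-th factor, which are divided by one of minimal
order at `P`. -/
noncomputable def multiplicities (F : ∀ b : Hypersurface n, MvPolynomial (Fin (M b.1 + 1)) ℂ)
    (d : Hypersurface n → ℕ) (x : ∀ i, Fin (M i + 1) → K) (P : Place ℂ K) (b : Hypersurface n) :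
    ℕ :=
  (P.ord (aeval (x b.1) (F b)) - d b * minimalOrder (x b.1) P).toNat

/-- The order of the form `Ω` along `P`: the minimal order of its values at vector fields which are
regular at `P`. -/
noncomputable def formOrder (Ω : (Fin N → Derivation ℂ K K) → K) (P : Place ℂ K) : ℤ :=
  sInf {k : ℤ | ∃ D : Fin N → Derivation ℂ K K, (∀ c, DerReg P (D c)) ∧ Ω D ≠ 0 ∧
    P.ord (Ω D) = k}

/-- The log discrepancy along `P` of the product of the `V i`, with the boundary
`∑ (i, k), (F (i, k) = 0)`, if the forms `Ω * ∏ i, (x i j) ^ (κ i)` are local generators of the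
canonical bundle, `x i j` a coordinate of minimal order at `P`. -/
noncomputable def logDiscrepancy (F : ∀ b : Hypersurface n, MvPolynomial (Fin (M b.1 + 1)) ℂ)
    (d : Hypersurface n → ℕ) (κ : Fin r → ℤ) (x : ∀ i, Fin (M i + 1) → K)
    (Ω : (Fin N → Derivation ℂ K K) → K) (P : Place ℂ K) : ℤ :=
  formOrder Ω P + 1 - ∑ b, (multiplicities F d x P b : ℤ) + ∑ i, κ i * minimalOrder (x i) P

/-- The coefficient of `P` in the pullback of `K + Δ`, for the divisor with the function `ψ`: the log
discrepancy along `P` is `ψ v + logDiscrepancy F d κ x Ω P`, `v` the vector of the multiplicities. -/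
noncomputable def coefficient (F : ∀ b : Hypersurface n, MvPolynomial (Fin (M b.1 + 1)) ℂ)
    (d : Hypersurface n → ℕ) (κ : Fin r → ℤ) (x : ∀ i, Fin (M i + 1) → K)
    (Ω : (Fin N → Derivation ℂ K K) → K) (ψ : (Hypersurface n → ℕ) → ℚ) (P : Place ℂ K) : ℚ :=
  1 - ψ (multiplicities F d x P) - logDiscrepancy F d κ x Ω P

/-- The vectors of the faces: for every `i` one of the entries is zero. -/
def IsFaceVector (v : Hypersurface n → ℕ) : Prop := ∀ i, ∃ k, v ⟨i, k⟩ = 0

/-- The functions `ψ i` on the vectors of the faces are homogeneous, and for a finite set `T` of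
nonzero vectors of the faces every vector `v` of a face is a nonnegative combination of the vectors
in `T`, such that all `ψ i v` are at most the combinations of the values at the vectors in `T` (for
functions which are linear on the cones of a fan let `T` be the generators of the rays). -/
structure AreLogDiscrepancies (ψ : Fin p → (Hypersurface n → ℕ) → ℚ) : Prop where
  homogeneous : ∀ i v (k : ℕ), 1 ≤ k → IsFaceVector v → ψ i (k • v) = k * ψ i v
  finite : ∃ T : Finset (Hypersurface n → ℕ), (∀ s ∈ T, IsFaceVector s ∧ s ≠ 0) ∧
    ∀ v, IsFaceVector v → ∃ w : (Hypersurface n → ℕ) → ℚ, (∀ s, 0 ≤ w s) ∧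
      (∀ b, (v b : ℚ) = ∑ s ∈ T, w s * s b) ∧ ∀ i, ψ i v ≤ ∑ s ∈ T, w s * ψ i s

/-- The polytope of the numbers `y (i, k)` such that `∑ (i, k), y (i, k) (F (i, k) = 0)` has the class
of `∑ i, μ i` times the log canonical divisor of `(V, ∑ (i, k), (F (i, k) = 0))`, and whose
inequalities express that its pullback is effective as a section of `∑ i, μ i (K + Δ i)`. -/
def polytope (d : Hypersurface n → ℕ) (κ : Fin r → ℤ) (ψ : Fin p → (Hypersurface n → ℕ) → ℚ)
    (μ : Fin p →₀ ℕ) : Set (Hypersurface n → ℚ) :=
  {y | (∀ i, ∑ k, (d ⟨i, k⟩ : ℚ) * y ⟨i, k⟩ =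
      (∑ j, (μ j : ℚ)) * ((κ i : ℚ) + ∑ k, (d ⟨i, k⟩ : ℚ))) ∧
    ∀ v, IsFaceVector v → ∑ j, (μ j : ℚ) * ψ j v ≤ ∑ b, (v b : ℚ) * y b}

end places

section sections

variable {K : Type} [Field K] [Algebra ℂ K] {p : ℕ} (N : ℕ) (δ : Fin p → Place ℂ K → ℚ)

/-- `ω` is a section of `∑ i, μ i (K + Δ i) + j A`: a rational section of the power of the canonical
bundle with the exponent `∑ i, μ i` (`IsPluri`: a function of `N` rational vector fields which is
multiplied by the power of `det B` under a linear substitution `B`) whose order on the vector fields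
which are regular at `P` is at least `j` times the order of one of the functions in `S`, minus
`∑ i, μ i * δ i P`, where `δ i P` is the coefficient of `P` in the pullback of `K + Δ i`, for all
prime divisors `P` (all divisorial places `P` of `K`). Here `A` is the divisor which is generated by
the finite set `S` of functions; `A = 0` if `S = {1}`. -/
def IsSection (S : Finset K) (μ : Fin p →₀ ℕ) (j : ℕ) (ω : (Fin N → Derivation ℂ K K) → K) :
    Prop :=
  IsPluri (∑ i, μ i) ω ∧ ∀ P : Place ℂ K, Divisorial N P → ∀ D : Fin N → Derivation ℂ K K,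
    (∀ c, DerReg P (D c)) → ω D = 0 ∨ ∃ s ∈ S, s ≠ 0 ∧
      (j : ℚ) * P.ord s - ∑ i, (μ i : ℚ) * δ i P ≤ P.ord (ω D)

/-- The real combination `∑ i, lam i (K + Δ i)` is pseudo-effective: there is a divisor `A` such that
for all `M` a positive multiple `j (M ∑ i, lam i (K + Δ i) + A)` has a nonzero section, after a
change of the coefficients `j M lam i` by at most `j`. -/
def Pseudoeffective (lam : Fin p → ℝ) : Prop :=
  ∃ S : Finset K, ∀ M : ℕ, ∃ j : ℕ, 1 ≤ j ∧ ∃ μ : Fin p →₀ ℕ,
    (∀ i, |(μ i : ℝ) - j * M * lam i| ≤ j) ∧ ∃ η, η ≠ 0 ∧ IsSection N δ S μ j η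

/-- The sections of `∑ i, μ i (K + Δ i)` define a rational map whose image has dimension at least
`h`: there are sections whose ratios contain `h` algebraically independent functions (for `h = 0`:
there is a nonzero section). -/
def ImageGe (μ : Fin p →₀ ℕ) (h : ℕ) : Prop :=
  ∃ ω : Fin (h + 1) → (Fin N → Derivation ℂ K K) → K, (∀ b, IsSection N δ {1} μ 0 (ω b)) ∧
    ∃ D, ω 0 D ≠ 0 ∧ AlgebraicIndependent ℂ (fun b : Fin h => ω b.succ D / ω 0 D)

/-- The numerical dimension of `D = ∑ i, μ i (K + Δ i)` is at most `h`: for every divisor `A` there is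
a constant `C` such that `h⁰ (m D + A) ≤ C m ^ h` for all `m ≥ 1`. -/
def NumericalLe (μ : Fin p →₀ ℕ) (h : ℕ) : Prop :=
  ∀ S : Finset K, ∃ C : ℕ, ∀ m M : ℕ, 1 ≤ m →
    (∃ ω : Fin M → (Fin N → Derivation ℂ K K) → K, LinearIndependent ℂ ω ∧
      ∀ l, IsSection N δ S (m • μ) 1 (ω l)) → M ≤ C * m ^ h

end sections

/-- **Uniform weak abundance.** For given dimensions `n i`, degrees `d (i, k)`, integers `κ i` and
functions `ψ i` there is an integer `T ≥ 1` such that for all projective varieties `V i` of dimension
`n i` with `n i + 1` forms `F (i, k)` of the degrees `d (i, k)` without common zeros, all finite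
extensions `K` of the function field of the product, all forms `Ω` and all integral combinations
`D = ∑ i, μ i (K + Δ i)`: `D` is pseudo-effective if and only if the polytope of `μ` is not empty, and
then `κ (D) = ν (D)` is the dimension of the polytope, and it is the dimension of the image of the
map which is defined by the sections of `T D`. -/
theorem result (r N p : ℕ) (n : Fin r → ℕ) (hn : ∀ i, 1 ≤ n i) (hN1 : 1 ≤ N)
    (hN : N = ∑ i, n i) (d : Hypersurface n → ℕ) (hd : ∀ b, 1 ≤ d b) (κ : Fin r → ℤ)
    (ψ : Fin p → (Hypersurface n → ℕ) → ℚ) (hψ : AreLogDiscrepancies ψ) :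
    ∃ T : ℕ, 1 ≤ T ∧
      ∀ (K : Type) [Field K] [Algebra ℂ K] [Algebra.EssFiniteType ℂ K] (M : Fin r → ℕ)
        (F : ∀ b : Hypersurface n, MvPolynomial (Fin (M b.1 + 1)) ℂ)
        (x : ∀ i, Fin (M i + 1) → K) (Ω : (Fin N → Derivation ℂ K K) → K)
        (δ : Fin p → Place ℂ K → ℚ),
        (∀ b, (F b).IsHomogeneous (d b)) → (∀ i j, x i j ≠ 0) → NoCommonZeros F x →
        IsTranscendenceBasis ℂ (ratio F d x) → IsPluri 1 Ω → Ω ≠ 0 →
        (∀ i, δ i = coefficient F d κ x Ω (ψ i)) →
        ∀ μ : Fin p →₀ ℕ,
          (Pseudoeffective N δ (fun i => (μ i : ℝ)) ↔ (polytope d κ ψ μ).Nonempty) ∧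
          ((polytope d κ ψ μ).Nonempty →
            ImageGe N δ (T • μ) (Module.finrank ℚ (vectorSpan ℚ (polytope d κ ψ μ))) ∧
            NumericalLe N δ μ (Module.finrank ℚ (vectorSpan ℚ (polytope d κ ψ μ)))) := by
  obtain ⟨T0, hT0, hT1⟩ := hψ.finite
  obtain ⟨T, hT, H⟩ := Pool.Agent.Q57.UG.top_k hn hN1 hN hd κ (p := p) (ψ := ψ)
    ⟨T0, hψ.homogeneous, hT0, hT1⟩
  refine ⟨T, hT, ?_⟩
  intro K _ _ _ M F x Ω δ hF hx hno hbas hΩ hΩ0 hδ μ
  obtain ⟨h1, h2⟩ := H K M F x Ω δ hF hx hno hbas hΩ hΩ0 (fun i P => congrFun (hδ i) P) μ
  refine ⟨h1, fun hne => ?_⟩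
  obtain ⟨⟨ω, h3, h4⟩, h5⟩ := h2 hne
  exact ⟨⟨ω, fun b => Pool.Agent.Q57.GG.msec_asec (h3 b), h4⟩, h5⟩

end Pool.Agent.Results.MP_2c56d9_ag.UniformWeakAbundance
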